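import Pool.Agent.Helper85K9.HW.Main

/-!
# The Grothendieck period conjecture in bounded degree for the hypergeometric families of Calabi–Yau type: windows with
few exceptional fibres

Let `β_1, …, β_m` be rational numbers which are not integers, `n = 2m` and `θ = z d/dz`. The hypergeometric operator
`θ^n - z ∏_j (θ - β_j) (θ + β_j)` has maximally unipotent monodromy at `z = 0`. For `m = 1` its solutions are periods of
families of elliptic curves, for `m = 2` and `β = (1/5, 2/5)` it is contiguous to the operator of the mirror quintics (so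
its fibre at `z` is the motive `H³` of a mirror quintic, with Hodge numbers `1, 1, 1, 1`), in general it is the equation of
a family of motives over `ℚ(z)` of rank `2m` and weight `2m - 1` with all Hodge numbers equal to `1`. The period matrix
(rows: Betti side, columns: de Rham side) of the fibre at `z = 1 / t` is `(Y(t) Ω)ᵀ`, where `Y(t)` is the matrix of the
`(θ^a f_b)(1 / t)`, `f_b` the Frobenius basis, and `Ω` is the matrix of the periods of the limit motive.

We prove: in each window `z = 1 / (t - G u)`, `1 ≤ u ≤ H`, `t` large compared to `H`, all the fibres and all the products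
of `k` distinct fibres, and even the direct sums of these motives and of the Kummer motives of `t - G u`, satisfy the
period conjecture in degree `≤ d` over all number fields of degree `≤ D`, with no bound on the height, except for a set `S`
of at most `m + 2` fibres; this bound does not depend on `k`, `D`, `d`, `H`, `t`. The same holds relative to given numbers
`ω_1, …, ω_p, w_1, …, w_q` (for instance the periods of any other motive): the relations of degree `≤ d` between them,
`2πi`, the logarithms and the periods of `k` fibres outside a set of at most `trdeg ℚ(ω, Ω, 2πi) + q + 1 ≤ m + 2 + p + q`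
fibres are consequences of the relations between the `ω`, `w` and `2πi` and of the torsor.
-/

set_option autoImplicit false

open PowerSeries NumberField

namespace Pool.Agent.Results.MP_77d3f5_ag.HypergeometricWindows

/-- the power series `k + ε` in the variable `ε` -/
noncomputable def shift (k : ℕ) : PowerSeries ℚ := C (k : ℚ) + X

/-- `a_k(ε) = ∏_{l < k} ∏_j ((l + ε)^2 - β_j^2) / (l + 1 + ε)^(2m)`. The series `∑_k a_k(ε) z^(k + ε)` solves the
equation `(θ^n - z ∏_j (θ^2 - β_j^2)) f = ε^n z^ε`, hence its coefficients `f_j` at `ε^j` with `j < n = 2m` are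
solutions of the homogeneous equation. -/
noncomputable def frob {m : ℕ} (β : Fin m → ℚ) (k : ℕ) : PowerSeries ℚ :=
  ∏ l ∈ Finset.range k, ((∏ j, (shift l ^ 2 - C (β j ^ 2))) * ((shift (l + 1))⁻¹) ^ (2 * m))

/-- The matrix with the entries `(θ^i f_j)(1 / t)`, where `f_j(z)` is the coefficient of `ε^j` in the series
`∑_k a_k(ε) z^(k + ε)`, `z^ε = ∑_l (log z)^l ε^l / l!`. -/
noncomputable def Y {m : ℕ} (β : Fin m → ℚ) (t : ℕ) : Matrix (Fin (2 * m)) (Fin (2 * m)) ℂ :=
  Matrix.of fun i j => ∑ l ∈ Finset.range ((j : ℕ) + 1), ((Real.log (1 / t) ^ l / l.factorial : ℝ) : ℂ) *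
    ∑' k : ℕ, ((coeff ((j : ℕ) - l) (shift k ^ (i : ℕ) * frob β k) : ℚ) : ℂ) * (1 / (t : ℂ)) ^ k

/-- the polynomial `∏_j (x^2 - β_j^2)` -/
noncomputable def poly {m : ℕ} (β : Fin m → ℚ) : Polynomial ℚ := ∏ j, (Polynomial.X ^ 2 - Polynomial.C (β j ^ 2))

/-- The matrix of the polarisation in the basis given by the derivatives: the entry `(i, j)` is `(-1)^i q_{i+j+1-n}` for
`i + j + 1 ≥ n` and `0` otherwise, where `q_l` are the coefficients of `∏_j (x^2 - β_j^2)`. -/
noncomputable def J {m : ℕ} (β : Fin m → ℚ) : Matrix (Fin (2 * m)) (Fin (2 * m)) ℚ :=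
  Matrix.of fun i j => if 2 * m ≤ (i : ℕ) + j + 1 then (-1) ^ (i : ℕ) * (poly β).coeff (i + j + 1 - 2 * m) else 0

/-- The nilpotent matrix: `exp (2 π i N)` is the local monodromy at `z = 0` in the basis `f_0, …, f_{n-1}`. -/
def N (n : ℕ) : Matrix (Fin n) (Fin n) ℚ := Matrix.of fun i j => if (j : ℕ) = i + 1 then 1 else 0

/-- a rational matrix as a complex matrix -/
noncomputable def toC {n : ℕ} (M : Matrix (Fin n) (Fin n) ℚ) : Matrix (Fin n) (Fin n) ℂ := M.map (algebraMap ℚ ℂ)

/-- the number `2πi` -/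
noncomputable def twoPiI : ℂ := 2 * Real.pi * Complex.I

/-- `Ω` is the base change from the Frobenius basis to a rational (Betti) basis: it is invertible, in this basis the
logarithm of the local monodromy is a rational matrix `M`, and the form is `(2πi)^(n-1)` times a rational matrix `B` -/
structure LimitPeriods {m : ℕ} (β : Fin m → ℚ) (Ω : Matrix (Fin (2 * m)) (Fin (2 * m)) ℂ)
    (B : Matrix (Fin (2 * m)) (Fin (2 * m)) ℚ) : Prop where
  det : Ω.det ≠ 0
  log : ∃ M : Matrix (Fin (2 * m)) (Fin (2 * m)) ℚ, Ω * toC M = twoPiI • (toC (N (2 * m)) * Ω)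
  form : Ω.transpose * toC (J β) * Ω = twoPiI ^ (2 * m - 1) • toC B

/-- the period matrix of the fibre at `z = 1 / t` (rows: Betti side, columns: de Rham side) -/
noncomputable def periods {m : ℕ} (β : Fin m → ℚ) (Ω : Matrix (Fin (2 * m)) (Fin (2 * m)) ℂ) (t : ℕ) :
    Matrix (Fin (2 * m)) (Fin (2 * m)) ℂ := (Y β t * Ω).transpose

/-- coordinates: `lam`, and for each of the `k` fibres the number `l_j` and the entries of the matrix `X_j` -/
abbrev Coord (k m : ℕ) : Type := Option (Fin k × Option (Fin (2 * m) × Fin (2 * m)))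

/-- the point with coordinates `lam`, `l_j` and the entries of the matrices `X_j` -/
def point {k m : ℕ} (lam : ℂ) (l : Fin k → ℂ) (X : Fin k → Matrix (Fin (2 * m)) (Fin (2 * m)) ℂ) : Coord k m → ℂ :=
  fun o => o.elim lam fun a => a.2.elim (l a.1) fun x => X a.1 x.1 x.2

/-- The complex points of the torsor of the direct sum of the Tate motive, of the Kummer motives of `t_1, …, t_k` (period
matrices `(1, log t_j; 0, 2πi)`, points `(1, l_j; 0, lam)` with any `l_j`) and of the fibres at `1 / t_1, …, 1 / t_k`: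
`lam ≠ 0` and `X_j J X_jᵀ = lam^(2m-1) B`. It is a torsor under the group of all `lam`, `l_j`, `g_j`, `g_j` a symplectic
similitude with multiplier `lam^(2m-1)`. -/
def Torsor {m : ℕ} (β : Fin m → ℚ) (B : Matrix (Fin (2 * m)) (Fin (2 * m)) ℚ) (k : ℕ) :
    Set (ℂ × (Fin k → ℂ) × (Fin k → Matrix (Fin (2 * m)) (Fin (2 * m)) ℂ)) :=
  {x | x.1 ≠ 0 ∧ ∀ j, x.2.2 j * toC (J β) * (x.2.2 j).transpose = x.1 ^ (2 * m - 1) • toC B}

/-- the point of the torsor given by `2πi`, the logarithms and the periods of the fibres at `1 / t_1, …, 1 / t_k` -/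
noncomputable def periodPoint {m k : ℕ} (β : Fin m → ℚ) (Ω : Matrix (Fin (2 * m)) (Fin (2 * m)) ℂ) (t : Fin k → ℕ) :
    ℂ × (Fin k → ℂ) × (Fin k → Matrix (Fin (2 * m)) (Fin (2 * m)) ℂ) :=
  (twoPiI, fun j => ((Real.log (t j) : ℝ) : ℂ), fun j => periods β Ω (t j))

/-- every polynomial `P` of degree `≤ d` with coefficients in a number field of degree `≤ D` (any such field, no bound
on the height of the coefficients) which vanishes at the point `c` vanishes on the torsor -/
def DegreeGPC {m k : ℕ} (β : Fin m → ℚ) (B : Matrix (Fin (2 * m)) (Fin (2 * m)) ℚ)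
    (c : ℂ × (Fin k → ℂ) × (Fin k → Matrix (Fin (2 * m)) (Fin (2 * m)) ℂ)) (D d : ℕ) : Prop :=
  ∀ (K : Type) [Field K] [NumberField K] (φ : K →+* ℂ) (P : MvPolynomial (Coord k m) K),
    Module.finrank ℚ K ≤ D → P.totalDegree ≤ d → (P.map φ).eval (point c.1 c.2.1 c.2.2) = 0 →
    ∀ x ∈ Torsor β B k, (P.map φ).eval (point x.1 x.2.1 x.2.2) = 0

/-- relations with given numbers `v`: every polynomial `P` of degree `≤ d` with coefficients in a number field of degree
`≤ D` with `P(v, c) = 0` vanishes at `(v, x)` for all the points `x` of the torsor with `lam = 2πi` -/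
def RelativeGPC {ι : Type} (v : ι → ℂ) {m k : ℕ} (β : Fin m → ℚ) (B : Matrix (Fin (2 * m)) (Fin (2 * m)) ℚ)
    (c : ℂ × (Fin k → ℂ) × (Fin k → Matrix (Fin (2 * m)) (Fin (2 * m)) ℂ)) (D d : ℕ) : Prop :=
  ∀ (K : Type) [Field K] [NumberField K] (φ : K →+* ℂ) (P : MvPolynomial (ι ⊕ Coord k m) K),
    Module.finrank ℚ K ≤ D → P.totalDegree ≤ d → (P.map φ).eval (Sum.elim v (point c.1 c.2.1 c.2.2)) = 0 →
    ∀ x ∈ Torsor β B k, x.1 = twoPiI → (P.map φ).eval (Sum.elim v (point x.1 x.2.1 x.2.2)) = 0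

/-- the field generated by the numbers `ω`, by `2πi` and by the periods of the limit motive -/
noncomputable def constantField {m p : ℕ} (ω : Fin p → ℂ) (Ω : Matrix (Fin (2 * m)) (Fin (2 * m)) ℂ) :
    IntermediateField ℚ ℂ :=
  IntermediateField.adjoin ℚ (Set.range ω ∪ {twoPiI} ∪ Set.range fun x : Fin (2 * m) × Fin (2 * m) => Ω x.1 x.2)

theorem shift_eq (k : ℕ) : shift k = Pool.Agent.Y119.HY.kx k := rfl

theorem frob_eq {m : ℕ} (β : Fin m → ℚ) (k : ℕ) : frob β k = Pool.Agent.Y119.HY.aq (2 * m) (Pool.Agent.Y119.HY.QB β) k := by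
  unfold frob Pool.Agent.Y119.HY.aq
  refine Finset.prod_congr rfl fun l _ => ?_
  congr 1
  unfold Pool.Agent.Y119.HY.QB
  rw [map_prod]
  refine Finset.prod_congr rfl fun j _ => ?_
  simp only [map_sub, map_pow, Polynomial.aeval_X, Polynomial.aeval_C]
  rfl

theorem J_eq {m : ℕ} (β : Fin m → ℚ) : toC (J β) =
    Pool.Agent.Y119.HY.cm (Pool.Agent.Y119.HY.Jm (2 * m) (Pool.Agent.Y119.HY.QB β)) := rfl

theorem Y_eq {m : ℕ} (β : Fin m → ℚ) (t : ℕ) :
    Y β t = Pool.Agent.Y119.HZ.Yt (2 * m) (Pool.Agent.Y119.HY.QB β) t := by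
  ext i j
  unfold Y Pool.Agent.Y119.HZ.Yt
  rw [Matrix.of_apply, Matrix.mul_apply]
  have hE : ∀ c : Fin (2 * m), Pool.Agent.Y119.HY.E (Pool.Agent.Y119.HY.cm (Pool.Agent.Y119.HY.Am (2 * m)))
      (-((Real.log t : ℝ) : ℂ)) c j = ∑ l ∈ Finset.range (2 * m),
        if (j : ℕ) = c + l then ((Real.log (1 / t) ^ l / l.factorial : ℝ) : ℂ) else 0 := by
    intro c
    unfold Pool.Agent.Y119.HY.E
    rw [Matrix.sum_apply]
    refine Finset.sum_congr rfl fun l _ => ?_
    rw [Matrix.smul_apply, ← Pool.Agent.Y119.HY.cm_pow, Pool.Agent.Y119.HY.cm_apply, Pool.Agent.Y119.HY.Am_pow, smul_eq_mul,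
      one_div, Real.log_inv]
    split_ifs
    · push_cast
      ring
    · simp
  simp only [hE, Finset.mul_sum]
  rw [Finset.sum_comm]
  have hsub : Finset.range ((j : ℕ) + 1) ⊆ Finset.range (2 * m) := by
    intro l hl
    rw [Finset.mem_range] at hl ⊢
    have := j.2
    omega
  refine Finset.sum_subset_zero_on_sdiff hsub (fun l hl => ?_) fun l hl => ?_
  · rw [Finset.mem_sdiff, Finset.mem_range, Finset.mem_range] at hl
    refine Finset.sum_eq_zero fun c _ => ?_
    rw [if_neg (by omega), mul_zero]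
  · rw [Finset.mem_range] at hl
    have hj := j.2
    rw [Finset.sum_eq_single (⟨(j : ℕ) - l, by omega⟩ : Fin (2 * m))]
    · rw [if_pos (by simp only; omega), mul_comm]
      congr 1
      unfold Pool.Agent.Y119.HY.Hf Pool.Agent.Y119.HY.ps
      rw [Matrix.of_apply]
      refine tsum_congr fun k => ?_
      show _ = ((Pool.Agent.Y119.HY.hq (2 * m) (Pool.Agent.Y119.HY.QB β) k i ((j : ℕ) - l) : ℚ) : ℂ) *
        (((1 / (t : ℝ) : ℝ)) : ℂ) ^ k
      rw [frob_eq, shift_eq]
      unfold Pool.Agent.Y119.HY.hq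
      push_cast
      rfl
    · intro c _ hc
      rw [if_neg, mul_zero]
      intro h
      apply hc
      apply Fin.ext
      simp only
      omega
    · intro h
      exact absurd (Finset.mem_univ _) h

theorem periods_eq {m : ℕ} (β : Fin m → ℚ) (Ω : Matrix (Fin (2 * m)) (Fin (2 * m)) ℂ) (t : ℕ) :
    periods β Ω t = Pool.Agent.Helper85K9.HW.PM β Ω t := by
  unfold periods Pool.Agent.Helper85K9.HW.PM
  rw [Y_eq]

theorem constantField_eq {m p : ℕ} (ω : Fin p → ℂ) (Ω : Matrix (Fin (2 * m)) (Fin (2 * m)) ℂ) : constantField ω Ω =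
    IntermediateField.adjoin ℚ (Set.range (Pool.Agent.Helper85K9.HW.cst ω Pool.Agent.Helper85K9.HW.tpi Ω)) := by
  unfold constantField
  congr 1
  ext z
  constructor
  · rintro ((⟨i, rfl⟩ | hz) | ⟨x, rfl⟩)
    · exact ⟨Sum.inl i, rfl⟩
    · rw [Set.mem_singleton_iff] at hz
      exact ⟨Sum.inr none, hz.symm⟩
    · exact ⟨Sum.inr (some x), rfl⟩
  · rintro ⟨i | _ | x, rfl⟩
    · exact Or.inl (Or.inl ⟨i, rfl⟩)
    · exact Or.inl (Or.inr rfl)
    · exact Or.inr ⟨x, rfl⟩

/-- Let `β_1, …, β_m`, `m ≥ 1`, be rational numbers which are not integers. There is `G0` such that for all `G ≥ G0`, all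
limit periods `(Ω, B)`, all complex numbers `ω_1, …, ω_p` and all `q`, `k`, `D`, `d` there is `E` such that for all `H`, all
`t ≥ (H + 2)^E` and all complex numbers `w_1, …, w_q` there is a set `S` of integers such that (1) the number of elements
of `S` is at most `trdeg ℚ(ω, Ω, 2πi) + q + 1` and at most `m + 2 + p + q` (so at most `m + 2` for `p = q = 0`); (2) for all
`k`-tuples of distinct `1 ≤ u_j ≤ H`, `u_j ∉ S`, the point formed by `2πi`, the `log (t - G u_j)` and the period matrices of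
the fibres at `z = 1 / (t - G u_j)` is on the torsor, all the relations of degree `≤ d` over number fields of degree `≤ D`
which hold at the point hold on the torsor, and all the relations of degree `≤ d` over number fields of degree `≤ D`
between the coordinates of the point and the `ω`, `w` hold for all the points of the torsor with `lam = 2πi`. -/
theorem result {m : ℕ} (hm : 1 ≤ m) (β : Fin m → ℚ) (hβ : ∀ j, ∀ a : ℤ, β j ≠ a) :
    ∃ G0 : ℕ, ∀ G : ℕ, G0 ≤ G → ∀ (Ω : Matrix (Fin (2 * m)) (Fin (2 * m)) ℂ)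
      (B : Matrix (Fin (2 * m)) (Fin (2 * m)) ℚ), LimitPeriods β Ω B →
      ∀ (p : ℕ) (ω : Fin p → ℂ) (q k D d : ℕ), ∃ E : ℕ, ∀ H t : ℕ, (H + 2) ^ E ≤ t →
      (∀ u ≤ H, G * u + 2 ≤ t) ∧ ∀ w : Fin q → ℂ, ∃ S : Finset ℕ,
        (S.card : Cardinal) ≤ Algebra.trdeg ℚ (constantField ω Ω) + q + 1 ∧
        S.card ≤ m + 2 + p + q ∧
        ∀ u : Fin k → ℕ, Function.Injective u → (∀ j, 1 ≤ u j ∧ u j ≤ H ∧ u j ∉ S) →
          periodPoint β Ω (fun j => t - G * u j) ∈ Torsor β B k ∧
          DegreeGPC β B (periodPoint β Ω fun j => t - G * u j) D d ∧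
          RelativeGPC (Sum.elim ω w) β B (periodPoint β Ω fun j => t - G * u j) D d := by
  obtain ⟨G0, hG0⟩ := Pool.Agent.Helper85K9.HW.hw_main hm hβ
  refine ⟨G0, fun G hG Ω B hΩ p ω q k D d => ?_⟩
  obtain ⟨hdet, ⟨M, hM⟩, hform⟩ := hΩ
  obtain ⟨E, hE⟩ := hG0 G hG Ω M B hdet hM hform p ω q k D d
  refine ⟨E, fun H t ht => ?_⟩
  obtain ⟨h1, h2⟩ := hE H t ht
  refine ⟨h1, fun w => ?_⟩
  obtain ⟨S, hS, hS', hS2⟩ := h2 w
  refine ⟨S, by rw [constantField_eq]; exact hS, hS', fun u hu huS => ?_⟩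
  obtain ⟨h3, h4, h5⟩ := hS2 u hu huS
  have hper : (fun j => periods β Ω (t - G * u j)) = fun j => Pool.Agent.Helper85K9.HW.PM β Ω (t - G * u j) :=
    funext fun j => periods_eq β Ω _
  have hpp : periodPoint β Ω (fun j => t - G * u j) = (twoPiI, fun j => ((Real.log ((t - G * u j : ℕ) : ℝ) : ℝ) : ℂ),
      fun j => Pool.Agent.Helper85K9.HW.PM β Ω (t - G * u j)) := by
    unfold periodPoint
    rw [hper]
  rw [hpp]
  refine ⟨⟨Pool.Agent.Helper85K9.HW.tpi_ne, h3⟩, ?_, ?_⟩
  · intro K _ _ φ P hK hd hP x hx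
    exact h4 K φ P hK hd hP x.1 x.2.1 x.2.2 hx.1 hx.2
  · intro K _ _ φ P hK hd hP x hx hx1
    rw [hx1]
    refine h5 K φ P hK hd hP x.2.1 x.2.2 fun j => ?_
    have h6 := hx.2 j
    rw [hx1] at h6
    exact h6

end Pool.Agent.Results.MP_77d3f5_ag.HypergeometricWindows
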