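import Pool.Agent.Helper6K9.OS.Near

/-!
# Grothendieck's period conjecture in bounded degree and height for families with orthogonal monodromy

Let `X → S` be a family of smooth projective varieties of even dimension, for example of K3 surfaces or of hypersurfaces,
whose primitive cohomology has full orthogonal monodromy (Beauville: all hypersurfaces and complete intersections of even
dimension, with the obvious exceptions). The period conjecture predicts that the relations over a number field `K`
between the periods and `2 π i` of a fibre which is generic enough hold on the component through the period point of the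
torsor `Y Q(x) Yᵀ = μ ^ w J`: here the monodromy group and the torsor are disconnected, and the components are conjugate
over `K` or not according to the square roots of the discriminants `det Q(x) / det J`. We prove this for all fibres outside
few hypersurfaces of the base, in degree and height growing with the height of the point, for all families whose monodromy
group is dense in a product of orthogonal and symplectic groups; and for all fibres near every point of the base outside
a set of real codimension two.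

The method for connected groups (starting file `SymplecticMonodromy`) needs that the periods generate a regular extension
of the field of rational functions, which is false here. We apply it to the invariants of a group of reflections, and
recover the relation with the idempotents of the unions of the components which are conjugate over `K`, the coefficients
of which are elements of `K` of small height, by taking the norm over the group of reflections.
-/

set_option autoImplicit false

open Filter Matrix NumberField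

namespace Pool.Agent.Results.MP_77d3f5_ag.OrthogonalMonodromy

/-- the number `2 π i` -/
noncomputable def twoPiI : ℂ := 2 * Real.pi * Complex.I

/-- the field of algebraic numbers -/
abbrev Qbar : Type := algebraicClosure ℚ ℂ

/-- the indices `(i, a, b)` of the entries of square matrices of sizes `n i` -/
abbrev Entry {ι : Type} (n : ι → ℕ) : Type := Σ i, Fin (n i) × Fin (n i)

/-- the value at `x` and at the matrices `Y i` of a polynomial in their entries with coefficients in `ℂ[x]` -/
noncomputable def value {X ι : Type} {n : ι → ℕ} (x : X → ℂ) (Y : ∀ i, Matrix (Fin (n i)) (Fin (n i)) ℂ)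
    (p : MvPolynomial (Entry n) (MvPolynomial X ℂ)) : ℂ :=
  MvPolynomial.eval₂ (MvPolynomial.eval x) (fun q => Y q.1 q.2.1 q.2.2) p

/-- A family over the open set `U` of the space with coordinates indexed by `X`, with orthogonal or symplectic monodromy.
`P i x` are matrices of analytic functions on `U` (periods of bases of algebraic forms over a basis of the homology with
rational coefficients). `Q i` and `J i` are matrices with coefficients in `ℚ̄[x]` and `ℚ` (the polarization on the
forms and on the homology), symmetric if `orth i` (then the weight `w i` is even) and alternating otherwise, with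
`P i * Q i * (P i)ᵀ = (2 π i) ^ w i J i` on `U`. `Γ` is a set of families of rational matrices which preserve the `J i`
(the monodromy), such that the polynomial relations over `ℂ[x]` between the entries of the `P i x` on `U` are relations
between the entries of the `γ i * P i x`, and every polynomial which vanishes on `Γ` vanishes on the product of the
orthogonal, respectively symplectic groups of the forms `J i`. -/
structure Family (X : Type) [Fintype X] {ι : Type} (n : ι → ℕ) where
  U : Set (X → ℂ)
  isOpen : IsOpen U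
  conn : IsPreconnected U
  nonempty : U.Nonempty
  P : ∀ i, (X → ℂ) → Matrix (Fin (n i)) (Fin (n i)) ℂ
  an : ∀ i l j, AnalyticOnNhd ℂ (fun x => P i x l j) U
  orth : ι → Bool
  w : ι → ℕ
  w_even : ∀ i, orth i = true → Even (w i)
  pos : ∀ i, orth i = true → 0 < n i
  Q : ∀ i, Matrix (Fin (n i)) (Fin (n i)) (MvPolynomial X Qbar)
  Q_sym : ∀ i, orth i = true → (Q i).transpose = Q i
  Q_alt : ∀ i, orth i = false → (Q i).transpose = -Q i
  J : ∀ i, Matrix (Fin (n i)) (Fin (n i)) ℚ
  J_sym : ∀ i, orth i = true → (J i).transpose = J i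
  J_alt : ∀ i, orth i = false → (J i).transpose = -J i
  J_det : ∀ i, (J i).det ≠ 0
  riemann : ∀ x ∈ U, ∀ i, P i x * (Q i).map (MvPolynomial.aeval x) * (P i x).transpose =
    twoPiI ^ w i • (J i).map (algebraMap ℚ ℂ)
  Γ : Set (∀ i, Matrix (Fin (n i)) (Fin (n i)) ℚ)
  pres : ∀ γ ∈ Γ, ∀ i, γ i * J i * (γ i).transpose = J i
  mon : ∀ γ ∈ Γ, ∀ p : MvPolynomial (Entry n) (MvPolynomial X ℂ), (∀ x ∈ U, value x (fun i => P i x) p = 0) →
    ∀ x ∈ U, value x (fun i => (γ i).map (algebraMap ℚ ℂ) * P i x) p = 0
  dense : ∀ R : MvPolynomial (Entry n) ℂ,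
    (∀ γ ∈ Γ, MvPolynomial.eval (fun q => ((γ q.1).map (algebraMap ℚ ℂ)) q.2.1 q.2.2) R = 0) →
    ∀ M : ∀ i, Matrix (Fin (n i)) (Fin (n i)) ℂ,
      (∀ i, M i * (J i).map (algebraMap ℚ ℂ) * (M i).transpose = (J i).map (algebraMap ℚ ℂ)) →
      MvPolynomial.eval (fun q => M q.1 q.2.1 q.2.2) R = 0

section Def

variable {X : Type} [Fintype X] {ι : Type} {n : ι → ℕ}

/-- **The torsor of the periods at `x`**: the `(Y, μ)`, `μ ≠ 0`, with `Y i * Q i(x) * (Y i)ᵀ = μ ^ w i J i` for all `i`,
and `det (Y i) / μ ^ (w i n i / 2) = det (P i x) / (2 π i) ^ (w i n i / 2)` for the orthogonal `i` -/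
def Family.torsor (F : Family X n) (x : X → ℂ) : Set ((∀ i, Matrix (Fin (n i)) (Fin (n i)) ℂ) × ℂ) :=
  {p | p.2 ≠ 0 ∧ (∀ i, p.1 i * (F.Q i).map (MvPolynomial.aeval x) * (p.1 i).transpose =
      p.2 ^ F.w i • (F.J i).map (algebraMap ℚ ℂ)) ∧
    ∀ i, F.orth i = true → (p.1 i).det * twoPiI ^ (F.w i / 2 * n i) = (F.P i x).det * p.2 ^ (F.w i / 2 * n i)}

/-- `x` is the quotient of two integers of `K` all of whose conjugates have absolute value at most `T`. -/
def HeightLe (K : Type) [Field K] [NumberField K] (T : ℝ) (x : K) : Prop :=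
  ∃ a b : 𝓞 K, b ≠ 0 ∧ (∀ φ : K →+* ℂ, ‖φ a‖ ≤ T ∧ ‖φ b‖ ≤ T) ∧ x = a / b

/-- the points of the closed ball of radius `k` at distance at least `1 / k` from the complement of `U` (sup norm) -/
def Inner (U : Set (X → ℂ)) (k : ℕ) : Set (X → ℂ) := {z | ‖z‖ ≤ k ∧ Metric.ball z (k : ℝ)⁻¹ ⊆ U}

/-- `S` is contained in the union of `m` hypersurfaces of degree at most `D` -/
def Covered (D m : ℕ) (S : Set (X → ℂ)) : Prop :=
  ∃ Φ : Finset (MvPolynomial X ℂ), Φ.card ≤ m ∧ (∀ P ∈ Φ, P ≠ 0 ∧ P.totalDegree ≤ D) ∧
    ∀ x ∈ S, ∃ P ∈ Φ, MvPolynomial.eval x P = 0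

variable [Fintype ι] [DecidableEq ι]

/-- the polynomial in the entries of the matrices `Y i` and `μ` with coefficients `c l a`, of degree at most `k` in each
entry and less than `k` in `μ` -/
noncomputable def poly {k : ℕ} (c : (Entry n → Fin (k + 1)) → Fin k → ℂ)
    (p : (∀ i, Matrix (Fin (n i)) (Fin (n i)) ℂ) × ℂ) : ℂ :=
  ∑ l : Entry n → Fin (k + 1), (∑ a : Fin k, p.2 ^ (a : ℕ) * c l a) *
    ∏ y : Entry n, (p.1 y.1 y.2.1 y.2.2) ^ (l y : ℕ)

/-- the relations over `K` of degree at most `k`, with coefficients of size at most `T ^ k`, between the periods at `x`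
and `2 π i` hold on the torsor -/
def Family.Generic (F : Family X n) (k : ℕ) (K : Type) [Field K] [NumberField K] (io : K →+* ℂ) (T : ℝ) (x : X → ℂ) :
    Prop :=
  ∀ c : (Entry n → Fin (k + 1)) → Fin k → 𝓞 K, (∀ l a (φ : K →+* ℂ), ‖φ (c l a : K)‖ ≤ T ^ k) →
    poly (fun l a => io (c l a : K)) (fun i => F.P i x, twoPiI) = 0 →
      ∀ p ∈ F.torsor x, poly (fun l a => io (c l a : K)) p = 0

/-- the points of `U` over `K`, of height at most `T`, of norm at most `k` and distance at least `1 / k` from the
complement, which are not generic -/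
def Family.Exceptional (F : Family X n) (k : ℕ) (K : Type) [Field K] [NumberField K] (io : K →+* ℂ) (T : ℝ) :
    Set (X → K) :=
  {e | (∀ j, HeightLe K T (e j)) ∧ (fun j => io (e j)) ∈ Inner F.U k ∧ ¬ F.Generic k K io T (fun j => io (e j))}

/-- For every `k` and `C` and all large `T`, all points `e` over `K` with coordinates of height at most `T` and
`|ξ_j - e_j| ≤ C T ^ (-τ)` are generic: the relations of degree at most `k` and height at most `T ^ k` hold on the
torsor. -/
def NearGeneric (F : Family X n) (K : Subfield ℂ) [NumberField K] (τ : ℝ) (ξ : X → ℂ) : Prop :=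
  ∀ (k : ℕ) (C : ℝ), ∃ T₁ : ℝ, ∀ T : ℝ, T₁ ≤ T → ∀ e : X → K,
    (∀ j, HeightLe K T (e j) ∧ ‖ξ j - e j‖ ≤ C * T ^ (-τ)) →
      F.Generic k K K.subtype T (fun j => (e j : ℂ))

/-- the exceptional set of all number fields and all exponents -/
def Exc (F : Family X n) : Set (X → ℂ) :=
  {ξ | ξ ∈ F.U ∧ ¬ ∀ (K : Subfield ℂ) [NumberField K] (τ : ℝ), 0 < τ → NearGeneric F K τ ξ}

/-- the exceptional set for the number fields of degree at most `D` and the exponent `τ` -/
def ExcD (F : Family X n) (D : ℕ) (τ : ℝ) : Set (X → ℂ) :=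
  {ξ | ξ ∈ F.U ∧ ¬ ∀ (K : Subfield ℂ) [NumberField K], Module.finrank ℚ K ≤ D → NearGeneric F K τ ξ}

end Def

/-- the integral of `x ^ j dx / √|F(x)|` from `e l` to `e (l + 1)`, `F = ∏ (x - e r)`, `r ≤ 2` -/
noncomputable def per (e : Fin 3 → ℝ) (l j : Fin 2) : ℝ :=
  ∫ x in (e l.castSucc)..(e l.succ), x ^ (j : ℕ) / √|∏ r, (x - e r)|

/-- the pairs `(0, 0)`, `(0, 1)`, `(1, 1)` -/
def pr : Fin 3 → Fin 2 × Fin 2 := ![(0, 0), (0, 1), (1, 1)]

/-- `F` is the family of the products of the Kummer surfaces `w² = d i * f i (x) * f i (y)`, `f i = ∏ (x - e i r)`,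
`r ≤ 2`, over the set of the `(e, d)` such that `d i` has positive real part and `e i 0, e i 1, e i 2` have increasing
real parts: all `i` are orthogonal of weight two, `J i` is the symmetric square of the intersection form, and if the
`e i r` and `d i` are real, then the periods are `(d i) ^ (-1/2)` times the entries of the symmetric square of the matrix
of the periods of `y² = f i (x)`, that is, the symmetrized periods of the forms `x ^ c y ^ c' dx dy / w` over the products
of two intervals between roots. -/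
def IsKummer {ι : Type} [Fintype ι] (F : Family ((Σ _ : ι, Fin (2 + 1)) ⊕ ι) (fun _ : ι => 3)) : Prop :=
  F.U = {x | (∀ i, 0 < (x (Sum.inr i)).re) ∧
    ∀ i (r s : Fin (2 + 1)), r < s → (x (Sum.inl ⟨i, r⟩)).re < (x (Sum.inl ⟨i, s⟩)).re} ∧
  (∀ i, F.orth i = true ∧ F.w i = 2 ∧ F.J i = Matrix.of ![![0, 0, 1], ![0, -1 / 2, 0], ![1, 0, 0]]) ∧
  ∀ (e : ι → Fin 3 → ℝ) (d : ι → ℝ), (∀ i, StrictMono (e i)) → (∀ i, 0 < d i) → ∀ (i : ι) (a b : Fin 3),
    F.P i (Sum.elim (fun q => (e q.1 q.2 : ℂ)) (fun i => (d i : ℂ))) a b =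
      ((1 / √(d i) * ((per (e i) (pr a).1 (pr b).1 * per (e i) (pr a).2 (pr b).2 +
        per (e i) (pr a).1 (pr b).2 * per (e i) (pr a).2 (pr b).1) / 2) : ℝ) : ℂ)

open Pool.Agent.Helper6K9.OS (OSFam)

/-- the same structure -/
noncomputable def Family.os {X : Type} [Fintype X] {ι : Type} {n : ι → ℕ} (F : Family X n) : OSFam X n where
  U := F.U
  isOpen := F.isOpen
  conn := F.conn
  nonempty := F.nonempty
  P := F.P
  an := F.an
  orth := F.orth
  w := F.w
  w_even := F.w_even
  pos := F.pos
  Q := F.Q
  Q_sym := F.Q_sym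
  Q_alt := F.Q_alt
  J := F.J
  J_sym := F.J_sym
  J_alt := F.J_alt
  J_det := F.J_det
  riemann := F.riemann
  Γ := F.Γ
  pres := F.pres
  mon := F.mon
  dense := F.dense

/-- the same structure -/
noncomputable def ofOS {X : Type} [Fintype X] {ι : Type} {n : ι → ℕ} (F : OSFam X n) : Family X n where
  U := F.U
  isOpen := F.isOpen
  conn := F.conn
  nonempty := F.nonempty
  P := F.P
  an := F.an
  orth := F.orth
  w := F.w
  w_even := F.w_even
  pos := F.pos
  Q := F.Q
  Q_sym := F.Q_sym
  Q_alt := F.Q_alt
  J := F.J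
  J_sym := F.J_sym
  J_alt := F.J_alt
  J_det := F.J_det
  riemann := F.riemann
  Γ := F.Γ
  pres := F.pres
  mon := F.mon
  dense := F.dense

section Tr

variable {X : Type} [Fintype X] {ι : Type} {n : ι → ℕ} [Fintype ι] [DecidableEq ι]

theorem generic_iff (F : Family X n) (k : ℕ) (K : Type) [Field K] [NumberField K] (io : K →+* ℂ) (T : ℝ) (x : X → ℂ) :
    F.Generic k K io T x ↔ F.os.Generic k K io T x := Iff.rfl

theorem height_iff (K : Type) [Field K] [NumberField K] (T : ℝ) (x : K) :
    HeightLe K T x ↔ Pool.Agent.Y120.HtLe K T x := Pool.Agent.Helper6K9.HC.heightLe_iff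

theorem exceptional_eq (F : Family X n) (k : ℕ) (K : Type) [Field K] [NumberField K] (io : K →+* ℂ) (T : ℝ) :
    F.Exceptional k K io T = F.os.Exceptional k K io T := by
  ext e
  constructor
  · rintro ⟨h1, h2, h3⟩
    exact ⟨fun j => (height_iff K T _).1 (h1 j), h2, h3⟩
  · rintro ⟨h1, h2, h3⟩
    exact ⟨fun j => (height_iff K T _).2 (h1 j), h2, h3⟩

end Tr

theorem kummer (ι : Type) [Fintype ι] [DecidableEq ι] :
    ∃ F : Family ((Σ _ : ι, Fin (2 + 1)) ⊕ ι) (fun _ : ι => 3), IsKummer F := by
  refine ⟨ofOS (Pool.Agent.Helper6K9.OS.Ins.kum ι), rfl, fun _ => ⟨rfl, rfl, rfl⟩, ?_⟩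
  intro e d he hd i a b
  have h1 : ∀ l j : Fin 2, Pool.Agent.Y890.HE.pm (fun _ : ι => 2) (fun q => (e q.1 q.2 : ℂ)) i l j =
      (per (e i) l j : ℂ) := by
    intro l j
    have h2 := Pool.Agent.Y118.HP.perC_eq_perT (he i) l (j : ℕ)
    rw [← Pool.Agent.Y118.HP.per_eq_perT (he i)] at h2
    exact h2
  have h2 : ((d i : ℝ) : ℂ) ^ (-(1 / 2) : ℂ) = ((1 / √(d i) : ℝ) : ℂ) := by
    have h3 : (-(1 / 2) : ℂ) = (((-(1 / 2) : ℝ)) : ℂ) := by
      push_cast
      ring
    rw [h3, ← Complex.ofReal_cpow (hd i).le, Real.rpow_neg (hd i).le, ← Real.sqrt_eq_rpow, one_div]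
  show (((d i : ℝ) : ℂ) ^ (-(1 / 2) : ℂ) • Pool.Agent.Helper6K9.OS.sy (Pool.Agent.Y890.HE.pm (fun _ : ι => 2)
    (fun q => (e q.1 q.2 : ℂ)) i)) a b = _
  rw [Matrix.smul_apply, smul_eq_mul, h2]
  have h4 : ∀ a : Fin 3, Pool.Agent.Helper6K9.OS.p0 a = (pr a).1 ∧ Pool.Agent.Helper6K9.OS.p1 a = (pr a).2 := by
    intro a
    fin_cases a <;> exact ⟨rfl, rfl⟩
  unfold Pool.Agent.Helper6K9.OS.sy
  rw [Matrix.of_apply, h1, h1, h1, h1, (h4 a).1, (h4 a).2, (h4 b).1, (h4 b).2]
  push_cast
  ring

/-- (1) Let `F` be a family with orthogonal and symplectic monodromy over an open subset `U` of `ℂ ^ X` (`Family`). Then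
`(P x, 2 π i)` is a point of the torsor `F.torsor x`. There is `ω → ∞` such that for all large `T` and all number fields
`K` of degree at most `ω T`, embedded in `ℂ`: the points of `U` with coordinates in `K` of height at most `T`, of norm at
most `ω T` and at distance at least `1 / ω T` from the complement of `U`, at which some relation of degree at most `ω T`
(in each entry), with coefficients in the integers of `K` of size at most `T ^ ω T`, between the periods and the powers
of `2 π i` (`a`-th power, `a < ω T`) does not hold on `F.torsor x` (`Exceptional`), lie on at most `T ^ (1 / ω T)`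
hypersurfaces of degree at most `T ^ (1 / ω T)`; and there are at most `T ^ (1 / ω T) * N ^ (|X| - 1)` of them, `N` being
the number of elements of `K` of height at most `T`.
(2) Let `Exc F` be the set of the points `ξ` of `F.U` for which it is not true that for all number fields `K` in `ℂ`, all
`τ > 0`, all `k` and `C` and all large `T` the following holds: at all points `e` with coordinates in `K` of height at most
`T` (`HeightLe`) and `|ξ_j - e_j| ≤ C T ^ (-τ)`, all relations of degree at most `k` with coefficients in the integers of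
`K` of size at most `T ^ k` between the periods and the powers of `2 π i` hold on `F.torsor e`. The Hausdorff dimension of
`Exc F` is at most `2 (|X| - 1)`, and that of the set of its real points is at most `|X| - 1`. For the number fields of
degree at most `D` and a given `τ` (`ExcD`) it is at most `2 D (|X| - 1) / τ`.
(3) The products of Kummer surfaces `w² = d i * f i (x) * f i (y)`, `f i = ∏ (x - e i r)`, `r ≤ 2`, with parameters `d i`
and `e i r` are such a family (`IsKummer`). -/
theorem result :
    (∀ (X : Type) [Fintype X] [DecidableEq X] [Nonempty X] (ι : Type) [Fintype ι] [DecidableEq ι] (n : ι → ℕ)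
      (F : Family X n),
      ((∀ x ∈ F.U, ((fun i => F.P i x), twoPiI) ∈ F.torsor x) ∧
      ∃ (ω : ℝ → ℕ) (T₀ : ℝ), Tendsto ω atTop atTop ∧ ∀ T, T₀ ≤ T → 0 < ω T ∧
        ∀ (K : Type) [Field K] [NumberField K], Module.finrank ℚ K ≤ ω T → ∀ (io : K →+* ℂ),
          Covered ⌊T ^ ((ω T : ℝ)⁻¹)⌋₊ ⌊T ^ ((ω T : ℝ)⁻¹)⌋₊
            ((fun (e : X → K) j => io (e j)) '' F.Exceptional (ω T) K io T) ∧
          (F.Exceptional (ω T) K io T).Finite ∧
          ((F.Exceptional (ω T) K io T).ncard : ℝ) ≤
            T ^ ((ω T : ℝ)⁻¹) * ({x : K | HeightLe K T x}.ncard : ℝ) ^ (Fintype.card X - 1)) ∧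
      dimH (Exc F) ≤ (2 * (Fintype.card X - 1) : ℕ) ∧
      dimH {ξ | ξ ∈ Exc F ∧ ∀ j, (ξ j).im = 0} ≤ (Fintype.card X - 1 : ℕ) ∧
      ∀ (D : ℕ) (τ : ℝ), 0 < τ →
        dimH (ExcD F D τ) ≤ ENNReal.ofReal (2 * D * ((Fintype.card X : ℝ) - 1) / τ)) ∧
    ∀ (ι : Type) [Fintype ι] [DecidableEq ι],
      ∃ F : Family ((Σ _ : ι, Fin (2 + 1)) ⊕ ι) (fun _ : ι => 3), IsKummer F := by
  refine ⟨?_, kummer⟩
  intro X _ _ _ ι _ _ n F
  refine ⟨⟨fun x hx => F.os.mem hx, ?_⟩, (Pool.Agent.Helper6K9.OS.os_near F.os).1,
    (Pool.Agent.Helper6K9.OS.os_near F.os).2, fun D τ hτ => Pool.Agent.Helper6K9.OS.os_near' F.os D τ hτ⟩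
  obtain ⟨ω, T₀, h1, _, h3⟩ := F.os.main'
  refine ⟨ω, T₀, h1, fun T hT => ⟨(h3 T hT).1, fun K _ _ hK io => ?_⟩⟩
  obtain ⟨h4, h5, h6⟩ := (h3 T hT).2 K hK io
  rw [exceptional_eq]
  refine ⟨h4, h5, ?_⟩
  have h7 : {x : K | HeightLe K T x} = {x : K | Pool.Agent.Y120.HtLe K T x} := by
    ext x
    exact height_iff K T x
  rw [h7]
  exact h6

end Pool.Agent.Results.MP_77d3f5_ag.OrthogonalMonodromy
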