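import Pool.Agent.Helper6K9.HC.Sharp

/-!
# Grothendieck's period conjecture in bounded degree near every point: the exceptional points form a set of
# Hausdorff dimension at most `2 (|X| - 1)`, and this is best possible

Let `F` be a family over an open set `U` of `ℂ ^ X` with symplectic monodromy (`SympFam`): `P x` is the matrix of the
periods of the fibre at `x`, a point `(P x, 2 π i)` of `torsor x`, the torsor of the generic Mumford-Tate group. We
look at all points `e` of `U` over number fields `K` in `ℂ` which are near a given point `ξ` of `U`: the coordinates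
of `e` have height at most `T` and `|ξ_j - e_j| ≤ C T ^ (-τ)`. For all `ξ` outside ONE exceptional set `Exc`, of Hausdorff
dimension at most `2 (|X| - 1)`, all these points satisfy, for every `K`, `τ > 0`, `k` and `C`, once `T` is large, the
prediction of the period conjecture for all relations of degree at most `k` and height at most `T ^ k`: they hold on
the whole torsor. So `Exc` has real codimension at least two; it has dimension zero if there is one parameter, for
example for the curves `y² = f(x) (x - t)`. The real points of `Exc` have dimension at most `|X| - 1`. These bounds are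
exact for the products of two curves `y² = f(x) (x - t_1)`, `y² = f(x) (x - t_2)`, because of the diagonal. For number
fields of degree at most `D` and a large exponent `τ` the exceptional set is of dimension at most `2 D (|X| - 1) / τ`.

The method. The points of height at most `T` which are not generic lie on few hypersurfaces of bounded degree
(`Pool/Agent/Y890`, the starting file `SymplecticMonodromy`). New: the part in a ball of a complex hypersurface of degree
at most `D` is covered by `C r ^ (-2 (|X| - 1))` balls of radius `r`, and the part near the real points by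
`C r ^ (-(|X| - 1))` balls, `C` depending only on `D`, `|X|` and the ball (`Pool/Agent/Helper6K9/HC/Cover.lean`).
-/

set_option autoImplicit false

namespace Pool.Agent.Results.MP_77d3f5_ag.SharpCodimension

open Pool.Agent.Helper6K9.HC Pool.Agent.Y890.SM
open Pool.Agent.Y118.HP (jm Dm InGap er)

/-- `F` is the family of the products of the curves `y² = ∏_j (x - a i j) (x - t i)`, the number `t i` being in the
`m i`-th gap of the increasing real numbers `a i j`, or in `ℂ` minus the complement of the gap in `ℝ`. The intersection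
form is `jm`; for real `t i` the periods are the integrals of `x ^ j dx / √|F(x)|` between consecutive roots of `F`
(`er` lists the `a i j` and `t i` in increasing order). -/
def IsCurves {ι : Type} [Fintype ι] {n : ι → ℕ} (a : ∀ i, Fin (n i) → ℝ) (m : ∀ i, Fin (n i + 1))
    (F : SympFam ι n) : Prop :=
  F.U = {t | ∀ i, t i ∈ Dm (a i) (m i)} ∧ (∀ i, F.w i = 1) ∧ (∀ i, F.J i = jm ℚ (n i)) ∧
  ∀ (t : ι → ℝ) (i : ι), InGap (a i) (m i) (t i) → ∀ l j : Fin (n i), F.P i (fun i => (t i : ℂ)) l j =
    ((∫ x in (er (a i) (m i) (t i) l.castSucc)..(er (a i) (m i) (t i) l.succ),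
      x ^ (j : ℕ) / √|∏ r, (x - er (a i) (m i) (t i) r)| : ℝ) : ℂ)

/-- algebraic numbers -/
theorem exists_b {ι : Type} {n : ι → ℕ} (a : ∀ i, Fin (n i) → ℝ) (h : ∀ i j, IsAlgebraic ℚ (a i j)) :
    ∃ b : ∀ i, Fin (n i) → Pool.Agent.Y890.SP.Qbar,
      ∀ i j, algebraMap Pool.Agent.Y890.SP.Qbar ℂ (b i j) = (a i j : ℂ) :=
  ⟨fun i j => ⟨(a i j : ℂ), mem_algebraicClosure_iff.2 ((h i j).algebraMap (A := ℂ))⟩, fun _ _ => rfl⟩

theorem isCurves_lineFam {ι : Type} [Fintype ι] [DecidableEq ι] {n : ι → ℕ} (hn : ∀ i, Even (n i))
    (a : ∀ i, Fin (n i) → ℝ) (ha : ∀ i, StrictMono (a i)) (b : ∀ i, Fin (n i) → Pool.Agent.Y890.SP.Qbar)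
    (hb : ∀ i j, algebraMap Pool.Agent.Y890.SP.Qbar ℂ (b i j) = (a i j : ℂ)) (m : ∀ i, Fin (n i + 1)) :
    IsCurves a m (lineFam hn a ha b hb m) :=
  ⟨rfl, fun _ => rfl, fun _ => rfl, fun _ i ht l j => Pool.Agent.Y118.HP.perC_eq_per (ha i) ht l j⟩

/-- **The codimension of the exceptional set.**
(1) Let `F` be a family with symplectic monodromy over an open set `F.U` of `ℂ ^ X`, and `w` a sequence of complex
numbers. Let `Exc F w` be the set of the points `ξ` of `F.U` for which it is not true that for all number fields `K` in
`ℂ`, all `τ > 0`, all `k` and `C` and all large `T` the following holds (`NearGeneric`): at all points `e` with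
coordinates in `K` of height at most `T` (`HeightLe`) and `|ξ_j - e_j| ≤ C T ^ (-τ)`, all relations of degree at most `k`
with coefficients in the integers of `K` of size at most `T ^ k` between the periods and the powers of `2 π i` hold on
the torsor `F.torsor e`, and those between the periods and the `w a`, `a < k`, hold at the `(Y, 2 π i)` in the torsor.
Then the Hausdorff dimension of `Exc F w` is at most `2 (|X| - 1)`, and that of the set of its real points is at most
`|X| - 1`. For the number fields of degree at most `D` and a given `τ` the dimension is at most `2 D (|X| - 1) / τ`.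
(2) The products of the curves `y² = ∏_j (x - a i j) (x - t i)`, `i` in a finite set `ι`, with real algebraic numbers
`a i j` (an even number of them for each `i`) and independent parameters `t i` are such families, with `X = ι`.
(3) The bounds are exact: in the case of two equal curves, with the parameters `t_1` and `t_2`, the dimensions are `2` and
`1`. -/
theorem result :
    (∀ (X : Type) [Fintype X] [DecidableEq X] [Nonempty X] (ι : Type) [Fintype ι] [DecidableEq ι] (n : ι → ℕ)
      (F : SympFam X n) (w : ℕ → ℂ),
      dimH (Exc F w) ≤ (2 * (Fintype.card X - 1) : ℕ) ∧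
      dimH {ξ | ξ ∈ Exc F w ∧ ∀ j, (ξ j).im = 0} ≤ (Fintype.card X - 1 : ℕ) ∧
      ∀ (D : ℕ) (τ : ℝ), 0 < τ →
        dimH (ExcD F w D τ) ≤ ENNReal.ofReal (2 * D * ((Fintype.card X : ℝ) - 1) / τ)) ∧
    (∀ (ι : Type) [Fintype ι] [DecidableEq ι] (n : ι → ℕ), (∀ i, Even (n i)) → ∀ a : ∀ i, Fin (n i) → ℝ,
      (∀ i, StrictMono (a i)) → (∀ i j, IsAlgebraic ℚ (a i j)) → ∀ m : ∀ i, Fin (n i + 1),
      ∃ F : SympFam ι n, IsCurves a m F) ∧
    ∀ N : ℕ, Even N → 0 < N → ∀ a : Fin N → ℝ, StrictMono a → (∀ j, IsAlgebraic ℚ (a j)) → ∀ m : Fin (N + 1),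
      ∃ F : SympFam (Fin 2) (fun _ : Fin 2 => N), IsCurves (fun _ => a) (fun _ => m) F ∧
        ∀ w : ℕ → ℂ, dimH (Exc F w) = 2 ∧ dimH {ξ | ξ ∈ Exc F w ∧ ∀ j, (ξ j).im = 0} = 1 := by
  refine ⟨?_, ?_, ?_⟩
  · intro X _ _ _ ι _ _ n F w
    exact ⟨(symp_near F w).1, (symp_near F w).2, fun D τ hτ => symp_near' F w D τ hτ⟩
  · intro ι _ _ n hn a ha halg m
    obtain ⟨b, hb⟩ := exists_b a halg
    exact ⟨lineFam hn a ha b hb m, isCurves_lineFam hn a ha b hb m⟩
  · intro N hN hN0 a ha halg m
    obtain ⟨b, hb⟩ := exists_b (ι := Unit) (n := fun _ => N) (fun _ => a) (fun _ => halg)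
    refine ⟨lineFam (fun _ => hN) (fun _ => a) (fun _ => ha) (fun _ => b ()) (fun _ => hb ()) (fun _ => m),
      isCurves_lineFam _ _ _ _ _ _, fun w => ?_⟩
    exact sharp hN hN0 a ha (b ()) (hb ()) m w

end Pool.Agent.Results.MP_77d3f5_ag.SharpCodimension
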