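import Pool.Agent.Helper67K9.SE.Expl

/-!
# The Grothendieck period conjecture in bounded degree and height for superelliptic curves

For `0 < μ < 1` the forms `x ^ j * (x - z) ^ (-μ) * ∏ (x - a i) ^ (μ - 1) dx`, `j < n`, are a basis of the eigenspace for
the exponent `μ` of the first cohomology of the superelliptic curves `y ^ N = (x - z) * ∏ (x - a i) ^ (N - 1)`,
`μ = k / N`, `(n - 1) * μ` not an integer. The branch point `z` moves; the monodromy groups are Zariski dense in products
of special linear groups. For `N` odd, prime to `n - 1`, the exponents `k / N`, `0 < k < N / 2`, together with their duals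
`1 - k / N` give all the periods of first and second kind.
-/

set_option autoImplicit false
set_option linter.unusedSectionVars false

open Filter NumberField Matrix

namespace Pool.Agent.Results.MP_77d3f5_ag.SpecialLinearMonodromy

open Pool.Agent

/-- Exponents `μ r` in `(0, 1)` such that all the `μ r`, `1 - μ r` are distinct (for `n = 2`, `μ r = 1 / 2` is allowed)
and `(n - 1) * μ r` is not an integer. -/
structure Exponents (n : ℕ) {e : ℕ} (μ : Fin e → ℝ) : Prop where
  unit : ∀ r, 0 < μ r ∧ μ r < 1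
  distinct : ∀ r s, r ≠ s → μ r ≠ μ s ∧ μ r + μ s ≠ 1
  half : 3 ≤ n → ∀ r, μ r ≠ 1 / 2
  infinity : ∀ r (k : ℤ), (n - 1 : ℝ) * μ r ≠ k

/-- A family of superelliptic curves with some eigenspaces: `n ≥ 2` real branch points `a 0 < ... < a (n - 1)`, the place
`m` of the moving branch point `z` among them, and `e` exponents `μ r`. -/
structure Family where
  n : ℕ
  e : ℕ
  a : Fin n → ℝ
  m : Fin (n + 1)
  μ : Fin e → ℝ
  two_le : 2 ≤ n
  mono : StrictMono a
  expos : Exponents n μ

/-- the domain of the moving branch point `z`: the plane without the half-lines of the `x ≤ a i`, `i < m`, and of the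
`a i ≤ x`, `m ≤ i` -/
def Family.domain (f : Family) : Set ℂ :=
  {z | ∀ i : Fin f.n, (i.castSucc < f.m → z - f.a i ∈ Complex.slitPlane) ∧
    (f.m ≤ i.castSucc → f.a i - z ∈ Complex.slitPlane)}

/-- the branch points in their order, `z` at place `m` -/
noncomputable def Family.branch (f : Family) (z : ℂ) : Fin (f.n + 1) → ℂ :=
  Fin.insertNth (α := fun _ => ℂ) f.m z fun i => (f.a i : ℂ)

/-- the exponents: `-μ` at `z` and `μ - 1` at the points `a i` -/
noncomputable def Family.expo (f : Family) (μ : ℝ) : Fin (f.n + 1) → ℝ :=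
  Fin.insertNth (α := fun _ => ℝ) f.m (-μ) fun _ => μ - 1

/-- the form `x ^ j * ∏ (± (x - e i)) ^ (κ i)` over the segment `l`, with `x - e i` for `i ≤ l` and `e i - x` for
`l < i` and principal values of the powers -/
noncomputable def Family.form (f : Family) (μ : ℝ) (z : ℂ) (l : Fin f.n) (j : ℕ) (x : ℂ) : ℂ :=
  x ^ j * ∏ i, if i ≤ l.castSucc then (x - f.branch z i) ^ (f.expo μ i : ℂ)
    else (f.branch z i - x) ^ (f.expo μ i : ℂ)

/-- the period matrix for the exponent `μ`: integrals of the forms over the segments between successive branch points -/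
noncomputable def Family.period (f : Family) (μ : ℝ) (z : ℂ) : Matrix (Fin f.n) (Fin f.n) ℂ :=
  Matrix.of fun l j => ∫ s in (0 : ℝ)..1, (f.branch z l.succ - f.branch z l.castSucc) *
    f.form μ z l j ((1 - s) * f.branch z l.castSucc + s * f.branch z l.succ)

/-- the value of the determinant of the period matrix:
`Γ(μ) ^ n * Γ(1 - μ) / Γ(1 + (n - 1) * μ) * (∏ i < j, (a j - a i)) ^ (2 * μ - 1)` -/
noncomputable def Family.detv (f : Family) (μ : ℝ) : ℝ :=
  Real.Gamma μ ^ f.n * Real.Gamma (1 - μ) / Real.Gamma (1 + (f.n - 1) * μ) *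
    (Matrix.vandermonde f.a).det ^ (2 * μ - 1)

/-- the polynomial `∏ (X - a i)` -/
noncomputable def Family.poly (f : Family) : Polynomial ℂ := ∏ i, (Polynomial.X - Polynomial.C (f.a i : ℂ))

/-- the pairing between the forms of exponents `μ` and `1 - μ`, in terms of the coefficients `p k` of `∏ (X - a i)`:
entries `(μ * (c + d) - d) * p (c + d + 1) - z * (μ * (c + d + 2) - d - 1) * p (c + d + 2)` -/
noncomputable def Family.pairing (f : Family) (μ : ℝ) (z : ℂ) : Matrix (Fin f.n) (Fin f.n) ℂ :=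
  Matrix.of fun c d => ((μ : ℂ) * ((c : ℕ) + (d : ℕ)) - (d : ℕ)) * f.poly.coeff ((c : ℕ) + d + 1) -
    z * (((μ : ℂ) * ((c : ℕ) + (d : ℕ) + 2) - (d : ℕ) - 1) * f.poly.coeff ((c : ℕ) + d + 2))

/-- the intersection matrix of the segments: up to the sign `-(-1) ^ (n - l)`, entries `1` for neighbours and
`-2 cos (π μ)` on the diagonal except for the segments with end-point `z` -/
noncomputable def Family.inter (f : Family) (μ : ℝ) : Matrix (Fin f.n) (Fin f.n) ℂ :=
  Matrix.of fun l k => -((-1) ^ (f.n - (l : ℕ)) * if (k : ℕ) = l + 1 ∨ (l : ℕ) = k + 1 then (1 : ℂ) else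
    if (l : ℕ) = k ∧ (f.m : ℕ) ≠ l ∧ (f.m : ℕ) ≠ l + 1 then (-(2 * Real.cos (Real.pi * μ)) : ℝ) else 0)

variable {B : Type} [Fintype B]

/-- tuples of matrices: for each curve `b` and each exponent `r` of `b` one matrix -/
abbrev Mats (F : B → Family) : Type := ∀ b, Fin (F b).e → Matrix (Fin (F b).n) (Fin (F b).n) ℂ

/-- the periods at a point -/
noncomputable def periods (F : B → Family) (x : B → ℂ) : Mats F := fun b r => (F b).period ((F b).μ r) (x b)

/-- the periods of the dual exponents at a point -/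
noncomputable def periods' (F : B → Family) (x : B → ℂ) : Mats F := fun b r => (F b).period (1 - (F b).μ r) (x b)

/-- the indices of the coordinates of pairs of tuples of matrices -/
abbrev Index (F : B → Family) : Type :=
  Σ b, (Fin (F b).e × Fin (F b).n × Fin (F b).n) ⊕ (Fin (F b).e × Fin (F b).n × Fin (F b).n)

/-- the coordinates of a pair of tuples of matrices -/
def coord (F : B → Family) (Y Y' : Mats F) : Index F → ℂ
  | ⟨b, Sum.inl q⟩ => Y b q.1 q.2.1 q.2.2
  | ⟨b, Sum.inr q⟩ => Y' b q.1 q.2.1 q.2.2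

/-- the bilinear relations `Y K Y'ᵀ = lam / (2 i sin (π μ)) E`, `K` the pairing, `E` the intersection matrix -/
def Bilinear (F : B → Family) (x : B → ℂ) (Y Y' : Mats F) (lam : ℂ) : Prop :=
  ∀ b r, Y b r * (F b).pairing ((F b).μ r) (x b) * (Y' b r).transpose =
    (lam / (2 * Complex.I * Complex.sin (Real.pi * (F b).μ r))) • (F b).inter ((F b).μ r)

/-- the torsor: pairs of tuples of matrices and `lam ≠ 0`, with the bilinear relations, such that `lam` and the
determinants of the `Y b r` satisfy all the polynomial relations with algebraic coefficients which hold between `2 π i`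
and the numbers `detv` -/
def Torsor (F : B → Family) (x : B → ℂ) (Y Y' : Mats F) (lam : ℂ) : Prop :=
  lam ≠ 0 ∧ Bilinear F x Y Y' lam ∧
  ∀ q : MvPolynomial (Option (Σ b, Fin (F b).e)) (algebraicClosure ℚ ℂ),
    MvPolynomial.aeval (fun o : Option (Σ b, Fin (F b).e) => o.elim (2 * Real.pi * Complex.I : ℂ)
      fun j => ((F j.1).detv ((F j.1).μ j.2) : ℂ)) q = 0 →
    MvPolynomial.aeval (fun o : Option (Σ b, Fin (F b).e) => o.elim lam fun j => (Y j.1 j.2).det) q = 0

/-- a polynomial over the integers of `K` of degree `≤ k`, all conjugates of the coefficients being `≤ T ^ k` -/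
def Small {σ : Type} {K : Type} [Field K] [NumberField K] (k : ℕ) (T : ℝ) (P : MvPolynomial σ (𝓞 K)) : Prop :=
  P.totalDegree ≤ k ∧ ∀ s (φ : K →+* ℂ), ‖φ (algebraMap (𝓞 K) K (P.coeff s))‖ ≤ T ^ k

/-- All small relations over `K` hold on the torsor: (1) if `∑ ξ a * P a = 0` at the periods, then also at all the pairs
of tuples with the bilinear relations for `lam = 2 π i` and with determinants `detv`; (2) if the `a i`
are algebraic and the exponents rational, and if `P = 0` at the periods and `2 π i`, then `P = 0` on the torsor. -/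
def Generic (F : B → Family) (k : ℕ) (K : Type) [Field K] [NumberField K] (io : K →+* ℂ) (ξ : Fin k → ℂ) (T : ℝ)
    (x : B → ℂ) : Prop :=
  (∀ P : Fin k → MvPolynomial (Index F) (𝓞 K), (∀ a, Small k T (P a)) →
    ∑ a, ξ a * MvPolynomial.eval₂ (io.comp (algebraMap (𝓞 K) K)) (coord F (periods F x) (periods' F x)) (P a) = 0 →
    ∀ Y Y' : Mats F, Bilinear F x Y Y' (2 * Real.pi * Complex.I) → (∀ b r, (Y b r).det = (F b).detv ((F b).μ r)) →
      ∑ a, ξ a * MvPolynomial.eval₂ (io.comp (algebraMap (𝓞 K) K)) (coord F Y Y') (P a) = 0) ∧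
  ((∀ b i, IsAlgebraic ℚ ((F b).a i : ℂ)) → (∀ b r, ∃ q : ℚ, (F b).μ r = q) →
    ∀ P : MvPolynomial (Option (Index F)) (𝓞 K), Small k T P →
    MvPolynomial.eval₂ (io.comp (algebraMap (𝓞 K) K)) (fun o : Option (Index F) =>
      o.elim (2 * Real.pi * Complex.I : ℂ) (coord F (periods F x) (periods' F x))) P = 0 →
    ∀ (Y Y' : Mats F) (lam : ℂ), Torsor F x Y Y' lam →
      MvPolynomial.eval₂ (io.comp (algebraMap (𝓞 K) K)) (fun o : Option (Index F) => o.elim lam (coord F Y Y')) P = 0)

/-- `x = a / b` with integers `a`, `b ≠ 0` of `K` all conjugates of which are `≤ T` -/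
def HeightLe (K : Type) [Field K] [NumberField K] (T : ℝ) (x : K) : Prop :=
  ∃ a b : 𝓞 K, b ≠ 0 ∧ house (a : K) ≤ T ∧ house (b : K) ≤ T ∧ x = a / b

/-- the exceptional points: tuples of elements of `K` of height `≤ T`, of norm `≤ k` and distance `≥ 1 / k` from the
boundary of the domain, at which some small relation does not hold on the torsor -/
def Exceptional (F : B → Family) (k : ℕ) (K : Type) [Field K] [NumberField K] (io : K →+* ℂ) (ξ : Fin k → ℂ) (T : ℝ) :
    Set (B → K) :=
  {e | (∀ b, HeightLe K T (e b)) ∧ (∀ b, ‖io (e b)‖ ≤ k ∧ Metric.ball (io (e b)) (k : ℝ)⁻¹ ⊆ (F b).domain) ∧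
    ¬ Generic F k K io ξ T fun b => io (e b)}

/-! ### Comparison with the definitions of the proof -/

/-- the family of the proof -/
def Family.toFam (f : Family) : Helper67K9.SE.Fam where
  n := f.n
  e := f.e
  a := f.a
  m := f.m
  μ := f.μ
  two := f.two_le
  mono := f.mono
  good := ⟨f.expos.unit, f.expos.distinct, f.expos.half, f.expos.infinity⟩

theorem period_eq (f : Family) (μ : ℝ) {z : ℂ} (hz : z ∈ f.domain) :
    f.period μ z = Helper67K9.SE.PM μ f.a f.m z := by
  ext l j
  rw [Helper67K9.SE.PM_eq_seg f.mono (m := f.m) hz l j]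
  rfl

theorem det_period (f : Family) (r : Fin f.e) {z : ℂ} (hz : z ∈ f.domain) :
    (f.period (f.μ r) z).det = (f.detv (f.μ r) : ℂ) := by
  rw [period_eq f _ hz]
  exact Helper67K9.SE.det_PM (f.expos.unit r).1 (f.expos.unit r).2 f.mono f.two_le f.m hz

theorem pairing_eq (f : Family) (μ : ℝ) (z : ℂ) : f.pairing μ z = Helper67K9.SE.KM μ f.a z := rfl

theorem inter_eq (f : Family) (μ : ℝ) : f.inter μ = Helper67K9.SE.EC (Helper67K9.SE.zt μ) f.m := by
  ext l k
  unfold Family.inter Helper67K9.SE.EC Helper67K9.SE.TT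
  rw [Matrix.of_apply, Matrix.of_apply, Helper67K9.SE.zt_add_inv]
  split_ifs <;> simp

theorem coord_eq (F : B → Family) (Y Y' : Mats F) :
    Helper67K9.SE.pt (fun b => (F b).toFam) Y Y' = coord F Y Y' := by
  funext q
  obtain ⟨b, q | q⟩ := q <;> rfl

theorem periods_eq (F : B → Family) {x : B → ℂ} (hx : ∀ b, x b ∈ (F b).domain) :
    Helper67K9.SE.perP (fun b => (F b).toFam) x = periods F x :=
  funext fun b => funext fun r => (period_eq (F b) ((F b).μ r) (hx b)).symm

theorem periods'_eq (F : B → Family) {x : B → ℂ} (hx : ∀ b, x b ∈ (F b).domain) :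
    Helper67K9.SE.perQ (fun b => (F b).toFam) x = periods' F x :=
  funext fun b => funext fun r => (period_eq (F b) (1 - (F b).μ r) (hx b)).symm

theorem bilinear_iff (F : B → Family) (x : B → ℂ) (Y Y' : Mats F) (lam : ℂ) : Bilinear F x Y Y' lam ↔
    ∀ b r, Y b r * Helper67K9.SE.KM ((F b).μ r) (F b).a (x b) * (Y' b r).transpose =
      (lam / (Helper67K9.SE.zt ((F b).μ r) - (Helper67K9.SE.zt ((F b).μ r))⁻¹)) •
        Helper67K9.SE.EC (Helper67K9.SE.zt ((F b).μ r)) (F b).m := by
  refine forall_congr' fun b => forall_congr' fun r => ?_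
  rw [Helper67K9.SE.zt_sub_inv, pairing_eq, inter_eq]

theorem generic_of (F : B → Family) [DecidableEq B] (k : ℕ) (K : Type) [Field K] [NumberField K]
    (io : K →+* ℂ) (ξ : Fin k → ℂ) (T : ℝ) {x : B → ℂ} (hx : ∀ b, x b ∈ (F b).domain)
    (h : Helper67K9.SE.Gen (fun b => (F b).toFam) k K io ξ T x) : Generic F k K io ξ T x := by
  obtain ⟨h1, h2⟩ := h
  rw [periods_eq F hx, periods'_eq F hx] at h1 h2
  have hdv : ∀ b r, (periods F x b r).det = ((F b).detv ((F b).μ r) : ℂ) := fun b r => det_period (F b) r (hx b)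
  refine ⟨fun P hP h3 Y Y' hY hd => ?_, fun hA hμ P hP h3 Y Y' lam hY => ?_⟩
  · have h4 := h1 P hP (by rw [coord_eq]; exact h3) Y Y' (fun b r => ⟨?_, ?_⟩)
    · rw [coord_eq] at h4
      exact h4
    · rw [periods_eq F hx]
      exact (hd b r).trans (hdv b r).symm
    · exact (bilinear_iff F x Y Y' _).1 hY b r
  · have h4 := h2 hA hμ P hP (by rw [coord_eq]; exact h3) Y Y' lam ⟨hY.1, (bilinear_iff F x Y Y' _).1 hY.2.1, ?_⟩
    · rw [coord_eq] at h4
      exact h4
    · rw [periods_eq F hx]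
      intro q hq
      refine hY.2.2 q ?_
      have h7 : (fun o : Option (Σ b, Fin (F b).e) => o.elim (2 * Real.pi * Complex.I : ℂ)
          fun j => ((F j.1).detv ((F j.1).μ j.2) : ℂ)) = fun o : Option (Σ b, Fin (F b).e) =>
            o.elim (2 * Real.pi * Complex.I : ℂ) fun j => (periods F x j.1 j.2).det := by
        funext o
        rcases o with _ | j
        · rfl
        · exact (hdv j.1 j.2).symm
      rw [h7]
      exact hq

theorem exceptional_sub (F : B → Family) [DecidableEq B] (k : ℕ) (hk : 0 < k) (K : Type) [Field K] [NumberField K]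
    (io : K →+* ℂ) (ξ : Fin k → ℂ) (T : ℝ) :
    Exceptional F k K io ξ T ⊆ Helper67K9.SE.Exc (fun b => (F b).toFam) k K io ξ T := by
  rintro e ⟨h1, h2, h3⟩
  have hk' : (0 : ℝ) < (k : ℝ)⁻¹ := by positivity
  have hx : ∀ b, io (e b) ∈ (F b).domain := fun b => (h2 b).2 (Metric.mem_ball_self hk')
  refine ⟨h1, ⟨?_, ?_⟩, fun h4 => h3 (generic_of F k K io ξ T hx h4)⟩
  · rw [pi_norm_le_iff_of_nonneg (Nat.cast_nonneg k)]
    exact fun b => (h2 b).1
  · intro y hy b
    refine (h2 b).2 ?_
    rw [Metric.mem_ball] at hy ⊢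
    exact lt_of_le_of_lt (dist_le_pi_dist y (fun b => io (e b)) b) hy

theorem torsor_two (F : B → Family) (h2 : ∀ b, (F b).n = 2) (hA : ∀ b i, IsAlgebraic ℚ ((F b).a i : ℂ))
    (hμ : ∀ b r, ∃ q : ℚ, (F b).μ r = q) (x : B → ℂ) (Y Y' : Mats F) (lam : ℂ) :
    Torsor F x Y Y' lam ↔ lam ≠ 0 ∧ Bilinear F x Y Y' lam ∧ ∀ b r, (Y b r).det =
      ((Matrix.vandermonde (F b).a).det ^ (2 * (F b).μ r - 1) : ℝ) * lam /
        (2 * Complex.I * (F b).μ r * Complex.sin (Real.pi * (F b).μ r)) := by
  have hdv : ∀ j : (Σ b, Fin (F b).e), (((F j.1).detv ((F j.1).μ j.2) : ℝ) : ℂ) =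
      Helper67K9.SE.cv (F j.1).a ((F j.1).μ j.2) * (2 * Real.pi * Complex.I) := fun j =>
    Helper67K9.SE.dv_eq_cv' (h2 j.1) ((F j.1).expos.unit j.2).1 ((F j.1).expos.unit j.2).2
  have hcA : ∀ j : (Σ b, Fin (F b).e), IsAlgebraic ℚ (Helper67K9.SE.cv (F j.1).a ((F j.1).μ j.2)) := fun j =>
    Helper67K9.SE.isAlgebraic_cv' (h2 j.1) (F j.1).mono (hA j.1) (hμ j.1 j.2)
  have hc : ∀ b r, Helper67K9.SE.cv (F b).a ((F b).μ r) * lam =
      ((Matrix.vandermonde (F b).a).det ^ (2 * (F b).μ r - 1) : ℝ) * lam /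
        (2 * Complex.I * (F b).μ r * Complex.sin (Real.pi * (F b).μ r)) := fun b r => by
    unfold Helper67K9.SE.cv
    ring
  refine and_congr_right fun _ => and_congr_right fun _ => ⟨fun h b r => ?_, fun h q hq => ?_⟩
  · let c' : algebraicClosure ℚ ℂ := ⟨Helper67K9.SE.cv (F b).a ((F b).μ r),
      mem_algebraicClosure_iff.2 (hcA ⟨b, r⟩)⟩
    have h3 := h (MvPolynomial.X (some ⟨b, r⟩) - MvPolynomial.C c' * MvPolynomial.X none) ?_
    · rw [map_sub, map_mul, MvPolynomial.aeval_X, MvPolynomial.aeval_X, MvPolynomial.aeval_C, sub_eq_zero] at h3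
      rw [← hc]
      exact h3
    · rw [map_sub, map_mul, MvPolynomial.aeval_X, MvPolynomial.aeval_X, MvPolynomial.aeval_C, sub_eq_zero]
      exact hdv ⟨b, r⟩
  · simp only [hdv] at hq
    have h4 := Helper67K9.SE.aeval_line Helper67K9.SE.trans_tp hcA q hq lam
    have h5 : (fun o : Option (Σ b, Fin (F b).e) => o.elim lam fun j => (Y j.1 j.2).det) =
        fun o => o.elim lam fun j => Helper67K9.SE.cv (F j.1).a ((F j.1).μ j.2) * lam := by
      funext o
      rcases o with _ | j
      · rfl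
      · exact (h j.1 j.2).trans (hc j.1 j.2).symm
    rw [h5]
    exact h4

/-- Let `F b`, `b ∈ B`, be finitely many families (`Family`). (1) The determinants of the period matrices are the numbers
`detv`; they are not zero. (2) At all the points the periods, the periods for the dual exponents and `2 π i` are on
the torsor (`Torsor`); in particular they satisfy the bilinear relations. (3) There is `ω → ∞` such that for all large
`T`, all number fields `K` of degree at most `ω T`, embedded in `ℂ`, and all complex numbers `ξ a`, `a < ω T`: the points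
with coordinates in `K` of height at most `T` (of norm at most `ω T`, at distance at least `1 / ω T` from the boundary of
the domain) at which some relation of degree at most `ω T` and with coefficients of size at most `T ^ ω T`, between the
periods and `2 π i` does not hold on the torsor, or between the periods and the `ξ a` does not hold on the torsor with the
determinants `detv` and `lam = 2 π i` (`Exceptional`), lie on at most `T ^ (1 / ω T)` hypersurfaces of degree at most
`T ^ (1 / ω T)`; and there are at most `T ^ (1 / ω T) * N ^ (|B| - 1)` of them, `N` being the number of elements of `K`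
of height at most `T`. (4) For `N` odd, prime to `n - 1`, the `μ r = r / N`, `0 < r < N / 2`, are exponents of a
family. (5) If all the `n` are `2`, all the `a i` algebraic and the exponents rational, then the torsor is given by `lam ≠ 0`,
the bilinear relations and `det (Y b r) = (a 1 - a 0) ^ (2 * μ - 1) * lam / (2 i μ sin (π μ))`. (6) For `n = 2` and all
`N` the `μ r = r / N`, `0 < r ≤ N / 2`, are exponents of a family. -/
theorem result :
    (∀ f : Family, ∀ r, (f.detv (f.μ r) : ℂ) ≠ 0 ∧ ∀ z ∈ f.domain, (f.period (f.μ r) z).det = f.detv (f.μ r)) ∧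
    (∀ (B : Type) [Fintype B] [DecidableEq B] [Nonempty B] (F : B → Family),
      (∀ x : B → ℂ, (∀ b, x b ∈ (F b).domain) →
        Torsor F x (periods F x) (periods' F x) (2 * Real.pi * Complex.I)) ∧
      ∃ (ω : ℝ → ℕ) (T₀ : ℝ), Tendsto ω atTop atTop ∧ Monotone ω ∧ ∀ T, T₀ ≤ T → 0 < ω T ∧
        ∀ (K : Type) [Field K] [NumberField K], Module.finrank ℚ K ≤ ω T → ∀ (io : K →+* ℂ) (ξ : Fin (ω T) → ℂ),
          (∃ Φ : Finset (MvPolynomial B ℂ), (Φ.card : ℝ) ≤ T ^ ((ω T : ℝ)⁻¹) ∧
            (∀ P ∈ Φ, P ≠ 0 ∧ (P.totalDegree : ℝ) ≤ T ^ ((ω T : ℝ)⁻¹)) ∧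
            ∀ e ∈ Exceptional F (ω T) K io ξ T, ∃ P ∈ Φ, MvPolynomial.eval (fun b => io (e b)) P = 0) ∧
          (Exceptional F (ω T) K io ξ T).Finite ∧
          ((Exceptional F (ω T) K io ξ T).ncard : ℝ) ≤
            T ^ ((ω T : ℝ)⁻¹) * ({x : K | HeightLe K T x}.ncard : ℝ) ^ (Fintype.card B - 1)) ∧
    (∀ n N : ℕ, 2 ≤ n → Odd N → N.Coprime (n - 1) →
      Exponents n fun r : Fin ((N - 1) / 2) => ((r : ℕ) + 1 : ℝ) / N) ∧
    (∀ (B : Type) [Fintype B] (F : B → Family), (∀ b, (F b).n = 2) → (∀ b i, IsAlgebraic ℚ ((F b).a i : ℂ)) →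
      (∀ b r, ∃ q : ℚ, (F b).μ r = q) → ∀ (x : B → ℂ) (Y Y' : Mats F) (lam : ℂ), Torsor F x Y Y' lam ↔
        lam ≠ 0 ∧ Bilinear F x Y Y' lam ∧ ∀ b r, (Y b r).det =
          ((Matrix.vandermonde (F b).a).det ^ (2 * (F b).μ r - 1) : ℝ) * lam /
            (2 * Complex.I * (F b).μ r * Complex.sin (Real.pi * (F b).μ r))) ∧
    ∀ N : ℕ, Exponents 2 fun r : Fin (N / 2) => ((r : ℕ) + 1 : ℝ) / N := by
  refine ⟨fun f r => ?_, fun B _ _ _ F => ⟨fun x hx => ?_, ?_⟩, ?_, fun B _ F h1 h2 h3 x Y Y' lam => ?_, fun N => ?_⟩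
  · refine ⟨?_, fun z hz => det_period f r hz⟩
    exact_mod_cast (Helper67K9.SE.dv_pos (f.expos.unit r).1 (f.expos.unit r).2 f.mono f.two_le).ne'
  · have hpi : (2 * Real.pi * Complex.I : ℂ) ≠ 0 := Helper67K9.SE.tp_ne
    have hdv : ∀ b r, (periods F x b r).det = ((F b).detv ((F b).μ r) : ℂ) := fun b r => det_period (F b) r (hx b)
    refine ⟨hpi, (bilinear_iff F x _ _ _).2 fun b r => ?_, fun q hq => by simpa only [hdv] using hq⟩
    have h1 := Helper67K9.SE.legendre ((F b).expos.unit r).1 ((F b).expos.unit r).2 (F b).mono (F b).two_le (F b).m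
      (hx b)
    rw [Helper67K9.SE.pi_div_sin ((F b).expos.unit r).1 ((F b).expos.unit r).2] at h1
    unfold periods periods'
    rw [period_eq _ _ (hx b), period_eq _ _ (hx b)]
    exact h1
  · obtain ⟨ω, T₀, h1, h2, h3⟩ := Helper67K9.SE.main_exc fun b => (F b).toFam
    refine ⟨ω, max T₀ 1, h1, h2, fun T hT => ⟨(h3 T ((le_max_left _ _).trans hT)).1, fun K _ _ hK io ξ => ?_⟩⟩
    have hT1 : 1 ≤ T := (le_max_right _ _).trans hT
    obtain ⟨h4, h5⟩ := h3 T ((le_max_left _ _).trans hT)
    obtain ⟨⟨Φ, h6, h7, h8⟩, h9, h10⟩ := h5 K hK io ξ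
    have hsub := exceptional_sub F (ω T) h4 K io ξ T
    have hp : (0 : ℝ) ≤ T ^ ((ω T : ℝ)⁻¹) := Real.rpow_nonneg (by linarith) _
    refine ⟨⟨Φ, ?_, fun P hP => ⟨(h7 P hP).1, ?_⟩, fun e he => ?_⟩, h9.subset hsub, ?_⟩
    · exact (Nat.cast_le.2 h6).trans (Nat.floor_le hp)
    · exact (Nat.cast_le.2 (h7 P hP).2).trans (Nat.floor_le hp)
    · exact h8 _ ⟨e, hsub he, rfl⟩
    · refine le_trans ?_ h10
      exact_mod_cast Set.ncard_le_ncard hsub h9
  · intro n N hn hN hc
    obtain ⟨M, rfl⟩ := hN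
    have hM : (2 * M + 1 - 1) / 2 = M := by omega
    have hN0 : (0 : ℝ) < ((2 * M + 1 : ℕ) : ℝ) := by positivity
    have hr : ∀ r : Fin ((2 * M + 1 - 1) / 2), (r : ℕ) + 1 ≤ M := fun r => by
      have := r.2
      omega
    refine ⟨fun r => ⟨?_, ?_⟩, fun r s hrs => ⟨?_, ?_⟩, fun _ r => ?_, fun r k => ?_⟩
    · exact div_pos (by positivity) hN0
    · rw [div_lt_one hN0]
      have := hr r
      exact_mod_cast (show (r : ℕ) + 1 < 2 * M + 1 by omega)
    · intro h
      rw [div_left_inj' hN0.ne'] at h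
      apply hrs
      apply Fin.ext
      exact_mod_cast add_right_cancel h
    · intro h
      rw [← add_div, div_eq_one_iff_eq hN0.ne'] at h
      have h1 : (r : ℕ) + 1 + ((s : ℕ) + 1) = 2 * M + 1 := by exact_mod_cast h
      have := hr r
      have := hr s
      omega
    · intro h
      rw [div_eq_div_iff hN0.ne' two_ne_zero] at h
      have h1 : ((r : ℕ) + 1) * 2 = 1 * (2 * M + 1) := by exact_mod_cast h
      omega
    · intro h
      have h1 : ((n - 1 : ℕ) : ℝ) = (n : ℝ) - 1 := by
        rw [Nat.cast_sub (by omega)]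
        simp
      rw [← h1, mul_div_assoc', div_eq_iff hN0.ne'] at h
      have h2 : ((n - 1 : ℕ) : ℤ) * ((r : ℕ) + 1 : ℤ) = k * (2 * M + 1 : ℕ) := by exact_mod_cast h
      have h3 : ((2 * M + 1 : ℕ) : ℤ) ∣ ((n - 1 : ℕ) : ℤ) * (((r : ℕ) + 1 : ℕ) : ℤ) := ⟨k, by push_cast at h2 ⊢; linarith⟩
      have h4 : (2 * M + 1) ∣ (n - 1) * ((r : ℕ) + 1) := by exact_mod_cast h3
      have h5 := Nat.le_of_dvd (Nat.succ_pos _) (hc.dvd_of_dvd_mul_left h4)
      have := hr r
      omega
  · exact torsor_two F h1 h2 h3 x Y Y' lam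
  · have hr : ∀ r : Fin (N / 2), 2 * ((r : ℕ) + 1) ≤ N := fun r => by
      have := r.2
      omega
    have hN0 : ∀ r : Fin (N / 2), (0 : ℝ) < N := fun r => by
      have := hr r
      exact_mod_cast (show 0 < N by omega)
    have h2 : ∀ r : Fin (N / 2), (0 : ℝ) < (((r : ℕ) + 1 : ℝ) / N) ∧ (((r : ℕ) + 1 : ℝ) / N) < 1 := fun r => by
      refine ⟨div_pos (by positivity) (hN0 r), ?_⟩
      rw [div_lt_one (hN0 r)]
      have := hr r
      exact_mod_cast (show (r : ℕ) + 1 < N by omega)
    refine ⟨h2, fun r s hrs => ⟨?_, ?_⟩, fun h => absurd h (by norm_num), fun r k => ?_⟩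
    · intro h
      rw [div_left_inj' (hN0 r).ne'] at h
      apply hrs
      apply Fin.ext
      exact_mod_cast add_right_cancel h
    · intro h
      rw [← add_div, div_eq_one_iff_eq (hN0 r).ne'] at h
      have h1 : (r : ℕ) + 1 + ((s : ℕ) + 1) = N := by exact_mod_cast h
      have := hr r
      have := hr s
      apply hrs
      apply Fin.ext
      omega
    · intro h
      obtain ⟨h3, h4⟩ := h2 r
      have h5 : ((2 : ℕ) - 1 : ℝ) * (((r : ℕ) + 1 : ℝ) / N) = ((r : ℕ) + 1 : ℝ) / N := by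
        push_cast
        ring
      rw [h5] at h
      rw [h] at h3 h4
      have h6 : (0 : ℤ) < k := by exact_mod_cast h3
      have h7 : k < (1 : ℤ) := by exact_mod_cast h4
      omega

end Pool.Agent.Results.MP_77d3f5_ag.SpecialLinearMonodromy
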